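import Pool.Agent.Lib.MP_b23666_gt.Curve

/-!
# A lower bound for the length of inspection curves of the unit sphere

Every curve of finite length that avoids the open unit ball and from which every point of the unit
sphere can be seen has length at least `2 * π + 4 * s - 4 * arctan s = 9.5324...`, where `s` is
determined by `s * √(s ^ 2 + 2) = π + 2 * arctan (s / √(s ^ 2 + 2))`.
-/

set_option autoImplicit false

open Set
open Pool.Agent.MP_b23666_gt

namespace Pool.Agent.Results.MP_b23666_gt.LowerBound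

/-- `p` sees the point `x` of the unit sphere: the closed segment from `p` to `x` does not meet the
open unit ball. -/
def Sees (p x : EuclideanSpace ℝ (Fin 3)) : Prop :=
  ∀ y ∈ segment ℝ p x, y ∉ Metric.ball (0 : EuclideanSpace ℝ (Fin 3)) 1

/-- Inspection curves for the unit sphere: continuous curves `[0, 1] → ℝ³` of finite length that
avoid the open unit ball and from which every point of the unit sphere is seen. -/
structure IsInspectionCurve (γ : ℝ → EuclideanSpace ℝ (Fin 3)) : Prop where
  continuousOn : ContinuousOn γ (Icc 0 1)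
  rectifiable : eVariationOn γ (Icc 0 1) ≠ ⊤
  outside : ∀ t ∈ Icc (0 : ℝ) 1, 1 ≤ ‖γ t‖
  sees : ∀ x : EuclideanSpace ℝ (Fin 3), ‖x‖ = 1 → ∃ t ∈ Icc (0 : ℝ) 1, Sees (γ t) x

/-- The infimum of the lengths of all inspection curves. -/
noncomputable def Lstar : ENNReal :=
  ⨅ (γ : ℝ → EuclideanSpace ℝ (Fin 3)) (_ : IsInspectionCurve γ), eVariationOn γ (Icc 0 1)

/-- `L* ≥ 2π + 4s - 4 arctan s > 9.532`, where `s √(s² + 2) = π + 2 arctan (s / √(s² + 2))`. -/
theorem result : ∃ s : ℝ, 0 < s ∧ s * √(s ^ 2 + 2) = Real.pi + 2 * Real.arctan (s / √(s ^ 2 + 2)) ∧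
    9.532 < 2 * Real.pi + 4 * s - 4 * Real.arctan s ∧
    ENNReal.ofReal (2 * Real.pi + 4 * s - 4 * Real.arctan s) ≤ Lstar := by
  obtain ⟨s, hs, hb⟩ := exists_s0
  have h0 : 0 < s := lt_trans (by norm_num) hs
  refine ⟨s, h0, ?_, ?_, ?_⟩
  · unfold bb at hb; linarith
  · have := value_gt hs
    norm_num at this ⊢
    linarith
  · have e : 2 * Real.pi + 4 * s - 4 * Real.arctan s = 2 * yy s := by
      rw [yy_s0 hb]; ring
    rw [e]
    unfold Lstar
    refine le_iInf (fun γ => le_iInf (fun hγ => ?_))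
    refine curve_bound h0 hb γ hγ.continuousOn ?_
    intro x hx
    obtain ⟨t, ht, h1⟩ := hγ.sees x hx
    refine ⟨t, ht, inner_of_sees hx ?_⟩
    intro y hy
    have h2 := h1 y hy
    rwa [mem_ball_zero_iff, not_lt] at h2

end Pool.Agent.Results.MP_b23666_gt.LowerBound
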