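import Pool.Agent.Lib.MP_b23666_gt.Data

/-!
# A verified upper bound for the length of inspection curves of the unit sphere

An explicit polygon with 477 vertices is an inspection curve of length less than `9.57644`.
-/

set_option autoImplicit false

open Set
open Pool.Agent.MP_b23666_gt.Upper

namespace Pool.Agent.Results.MP_b23666_gt.UpperBound

/-- `p` sees the point `x` of the unit sphere: the closed segment from `p` to `x` does not meet the
open unit ball. -/
def Sees (p x : EuclideanSpace ℝ (Fin 3)) : Prop :=
  ∀ y ∈ segment ℝ p x, y ∉ Metric.ball (0 : EuclideanSpace ℝ (Fin 3)) 1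

/-- Inspection curves for the unit sphere: continuous curves `[0, 1] → ℝ³` of finite length that
avoid the open unit ball and from which every point of the unit sphere is seen. -/
structure IsInspectionCurve (γ : ℝ → EuclideanSpace ℝ (Fin 3)) : Prop where
  continuousOn : ContinuousOn γ (Icc 0 1)
  rectifiable : eVariationOn γ (Icc 0 1) ≠ ⊤
  outside : ∀ t ∈ Icc (0 : ℝ) 1, 1 ≤ ‖γ t‖
  sees : ∀ x : EuclideanSpace ℝ (Fin 3), ‖x‖ = 1 → ∃ t ∈ Icc (0 : ℝ) 1, Sees (γ t) x

/-- The infimum of the lengths of all inspection curves. -/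
noncomputable def Lstar : ENNReal :=
  ⨅ (γ : ℝ → EuclideanSpace ℝ (Fin 3)) (_ : IsInspectionCurve γ), eVariationOn γ (Icc 0 1)

theorem sees_of_inner {p x : EuclideanSpace ℝ (Fin 3)} (hx : ‖x‖ = 1)
    (h : 1 ≤ inner ℝ p x) : Sees p x := by
  intro y hy hb
  rw [mem_ball_zero_iff] at hb
  obtain ⟨a, b, ha, hb', hab, rfl⟩ := hy
  have h1 : 1 ≤ inner ℝ (a • p + b • x) x := by
    rw [inner_add_left, real_inner_smul_left, real_inner_smul_left, real_inner_self_eq_norm_sq, hx]
    nlinarith
  have h2 := real_inner_le_norm (a • p + b • x) x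
  rw [hx, mul_one] at h2
  linarith

theorem lens_ok : lenAll pts.get 0 lens = true := by decide +kernel

theorem lens_length : lens.length = 476 := by decide +kernel

theorem lens_sum : lens.sum = 957643326 := by decide +kernel

theorem check_ok : checkAll 99999999 pts.get (476 + 1) 0 nbs = true := by decide +kernel

/-- `L* ≤ 9.57644`. -/
theorem result : Lstar ≤ ENNReal.ofReal 9.57644 := by
  have hS : (0 : ℤ) < 99999999 := by norm_num
  have hN : 0 < 476 := by norm_num
  have hv := cert_len hS lens_ok lens_length
  rw [lens_sum] at hv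
  have hγ : IsInspectionCurve (poly (RP 99999999 pts.get) 476) := by
    refine ⟨(poly_cont _ _).continuousOn, ?_, ?_, ?_⟩
    · exact ne_top_of_le_ne_top ENNReal.ofReal_ne_top hv
    · intro t ht
      exact cert_outside hS hN check_ok ht
    · intro x hx
      obtain ⟨t, ht, h⟩ := cert_sees hS hN check_ok hx
      exact ⟨t, ht, sees_of_inner hx h⟩
  unfold Lstar
  refine (iInf₂_le _ hγ).trans (hv.trans (ENNReal.ofReal_le_ofReal ?_))
  norm_num

end Pool.Agent.Results.MP_b23666_gt.UpperBound
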